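import Pool.Agent.Q271.UA.StepTwo

set_option autoImplicit false

/-! # MP_1639aa_nt: the values of the uniform exponents on the class `D_{n,w}` -/

namespace Pool.Agent.Results.MP_1639aa_nt.Spectrum

open Polynomial

/-- The height of an integral polynomial: the largest absolute value of its coefficients. -/
def height (P : ℤ[X]) : ℕ := P.support.sup fun i => (P.coeff i).natAbs

/-- The `w` for which `|P(ζ)| ≤ H(P) ^ (-w)` for infinitely many nonzero integral polynomials `P` of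
degree at most `n`. The exponent `w_n(ζ)` is the supremum of this set. -/
def W (n : ℕ) (ζ : ℝ) : Set ℝ :=
  {w | {P : ℤ[X] | P ≠ 0 ∧ P.natDegree ≤ n ∧ |aeval ζ P| ≤ (height P : ℝ) ^ (-w)}.Infinite}

/-- The `w` for which `|ζ - α| ≤ H(α) ^ (-w-1)` for infinitely many algebraic numbers `α` of degree
at most `n`; here `f` is the minimal polynomial of `α` over the integers (irreducible in `ℤ[X]`, so
primitive) and `H(α) = H(f)`. The exponent `w_n^*(ζ)` is the supremum of this set. -/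
def WStar (n : ℕ) (ζ : ℝ) : Set ℝ :=
  {w | {α : ℂ | ∃ f : ℤ[X], Irreducible f ∧ aeval α f = 0 ∧ f.natDegree ≤ n ∧
    ‖(ζ : ℂ) - α‖ ≤ (height f : ℝ) ^ (-w - 1)}.Infinite}

/-- The `w` such that for all large `X` there is a monic integral polynomial `P` of degree at most
`n` with `H(P) ≤ X` and `|P(ζ)| ≤ X ^ (-w)`. The uniform exponent for monic polynomials is the
supremum of this set. -/
def UInt (n : ℕ) (ζ : ℝ) : Set ℝ :=
  {w | ∃ X₀ : ℝ, ∀ X : ℝ, X₀ ≤ X → ∃ P : ℤ[X], P.Monic ∧ P.natDegree ≤ n ∧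
    (height P : ℝ) ≤ X ∧ |aeval ζ P| ≤ X ^ (-w)}

/-- The `w` such that for all large `X` there is an algebraic integer `α` of degree at most `n`, with
minimal polynomial `f`, such that `H(α) ≤ X` and `|ζ - α| ≤ H(α) ^ (-1) X ^ (-w)`. The uniform
exponent for algebraic integers is the supremum of this set. -/
def UStarInt (n : ℕ) (ζ : ℝ) : Set ℝ :=
  {w | ∃ X₀ : ℝ, ∀ X : ℝ, X₀ ≤ X → ∃ (α : ℂ) (f : ℤ[X]), Irreducible f ∧ f.Monic ∧
    aeval α f = 0 ∧ f.natDegree ≤ n ∧ (height f : ℝ) ≤ X ∧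
    ‖(ζ : ℂ) - α‖ ≤ (height f : ℝ)⁻¹ * X ^ (-w)}

/-- The class `D_{n,w}` of the transcendental real numbers `ζ` with `w_m(ζ) = w_m^*(ζ) = w` for
`m = 1, ..., n`. -/
def ClassD (n : ℕ) (w : ℝ) : Set ℝ :=
  {ζ | Transcendental ℚ ζ ∧ ∀ m, 1 ≤ m → m ≤ n → IsLUB (W m ζ) w ∧ IsLUB (WStar m ζ) w}

lemma main_of_data {n : ℕ} (hn : 2 ≤ n) {w κ ν e : ℝ} (hw : (n : ℝ) ≤ w) (hν : 0 ≤ ν)
    (hν1 : ν ≤ 1) (hκ0 : 0 ≤ κ) (hκ : n * κ ≤ w * (w + 1 - n))
    (he : e = ((n : ℝ) - ν) / (w + 1 - n + ν))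
    (h : ∃ ζ : ℝ, Transcendental ℚ ζ ∧ Nonempty (Q271.UA.Data n w κ ν ζ)) :
    ∃ ζ ∈ ClassD n w, IsLUB (UInt n ζ) e ∧ IsLUB (UStarInt n ζ) e := by
  obtain ⟨ζ, ht, ⟨D⟩⟩ := h
  rw [he]
  exact ⟨ζ, D.mem_classD (by omega) hw hκ ht, D.isLUB_UInt hn hw hν hν1 hκ0 hκ,
    D.isLUB_UStarInt hn hw hν hν1 hκ0 hκ⟩

/-- **The exponents are not determined by `n` and `w`.** For every `n ≥ 2` and every real
`w ≥ 2 n - 1` all values from `(n - 1) / (w - n + 2)` to `(n - 1) / (w - n + 1)` are taken by the two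
uniform exponents on `D_{n,w}` (jointly, with equal exponents), and for `w ≥ 2 n + 1 / (n - 1)` all
values from the lower bound `(n - 1) / (w - n + 2)` to the upper bound `n / (w - n + 1)`. -/
theorem result (n : ℕ) (hn : 2 ≤ n) (w : ℝ) :
    (2 * (n : ℝ) - 1 ≤ w →
      ∀ e ∈ Set.Icc (((n : ℝ) - 1) / (w - n + 2)) (((n : ℝ) - 1) / (w - n + 1)),
        ∃ ζ ∈ ClassD n w, IsLUB (UInt n ζ) e ∧ IsLUB (UStarInt n ζ) e) ∧
    (2 * (n : ℝ) + 1 / ((n : ℝ) - 1) ≤ w →
      ∀ e ∈ Set.Icc (((n : ℝ) - 1) / (w - n + 2)) ((n : ℝ) / (w - n + 1)),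
        ∃ ζ ∈ ClassD n w, IsLUB (UInt n ζ) e ∧ IsLUB (UStarInt n ζ) e) := by
  have hnR : (2 : ℝ) ≤ n := by exact_mod_cast hn
  have first : 2 * (n : ℝ) - 1 ≤ w →
      ∀ e ∈ Set.Icc (((n : ℝ) - 1) / (w - n + 2)) (((n : ℝ) - 1) / (w - n + 1)),
        ∃ ζ ∈ ClassD n w, IsLUB (UInt n ζ) e ∧ IsLUB (UStarInt n ζ) e := by
    rintro hw e ⟨he1, he2⟩
    have hL : 0 < w - n + 1 := by linarith
    rw [div_le_iff₀ (by linarith)] at he1
    rw [le_div_iff₀ hL] at he2
    have he0 : 0 < e := by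
      by_contra h0
      have : e * (w - n + 2) ≤ 0 := mul_nonpos_of_nonpos_of_nonneg (not_lt.1 h0) (by linarith)
      linarith
    obtain ⟨ν, hν⟩ : ∃ ν, ν = (n - e * (w - n + 1)) / (1 + e) := ⟨_, rfl⟩
    have hνe : ν * (1 + e) = n - e * (w - n + 1) := by rw [hν]; field_simp
    have hν1 : ν ≤ 1 := by
      rw [hν, div_le_one (by linarith)]; linarith
    have hν0 : 1 - ((n : ℝ) - 1) / w ≤ ν := by
      have hw0 : 0 < w := by linarith
      have h1 : 1 - ((n : ℝ) - 1) / w = (w - n + 1) / w := by field_simp; ring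
      rw [h1, hν, div_le_div_iff₀ hw0 (by linarith)]
      nlinarith
    have hν00 : 0 ≤ ν := by
      have h1 : ((n : ℝ) - 1) / w ≤ 1 := by rw [div_le_one (by linarith)]; linarith
      linarith
    refine main_of_data hn (by linarith) hν00 hν1 (by linarith) ?_ ?_
      (Q271.UA.constr₁ hn (by linarith) hν0 hν1)
    · rw [mul_comm]
      apply mul_le_mul_of_nonneg_left _ (by linarith)
      linarith
    · rw [eq_div_iff (by linarith)]
      linarith
  refine ⟨first, ?_⟩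
  rintro hw e ⟨he1, he2⟩
  have hn1 : (0 : ℝ) < n - 1 := by linarith
  have h1n : 0 < 1 / ((n : ℝ) - 1) := by positivity
  have hL : 0 < w - n + 1 := by linarith
  rcases le_or_gt e (((n : ℝ) - 1) / (w - n + 1)) with h | h
  · exact first (by linarith) e ⟨he1, h⟩
  · rw [div_lt_iff₀ hL] at h
    rw [le_div_iff₀ hL] at he2
    have he0 : 0 < e := by
      by_contra h0
      have : e * (w - n + 1) ≤ 0 := mul_nonpos_of_nonpos_of_nonneg (not_lt.1 h0) (by linarith)
      linarith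
    obtain ⟨ν, hν⟩ : ∃ ν, ν = (n - e * (w - n + 1)) / (1 + e) := ⟨_, rfl⟩
    have hνe : ν * (1 + e) = n - e * (w - n + 1) := by rw [hν]; field_simp
    have hw0 : 0 < w := by linarith
    have hν0 : 0 ≤ ν := by
      rw [hν]; apply div_nonneg <;> linarith
    have hν1 : ν ≤ 1 - ((n : ℝ) - 1) / w := by
      have h1 : 1 - ((n : ℝ) - 1) / w = (w - n + 1) / w := by field_simp; ring
      rw [h1, hν, div_le_div_iff₀ (by linarith) hw0]
      nlinarith
    have hν11 : ν ≤ 1 := by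
      have h1 : 0 ≤ ((n : ℝ) - 1) / w := by positivity
      linarith
    refine main_of_data hn (by linarith) hν0 hν11 (by positivity) ?_ ?_
      (Q271.UA.constr₂ hn (by linarith) hν0 hν1)
    · have h2 : (n : ℝ) * (w * n / (n - 1)) = w * (n + 1 + 1 / (n - 1)) := by
        field_simp; ring
      rw [h2]
      apply mul_le_mul_of_nonneg_left _ hw0.le
      linarith
    · rw [eq_div_iff (by linarith)]
      linarith

end Pool.Agent.Results.MP_1639aa_nt.Spectrum
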